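import Pool.Agent.Lib.MP_a60258_s6.H91.Avg

/-! Module CAN (helper63): class functions need only be checked on the graphs with maximal code. -/

set_option autoImplicit false

open MvPolynomial Finset

namespace A602.S6.H63

open A602.S6.H91

theorem act_act (σ τ : Equiv.Perm (Fin 6)) (x : Pr → ℕ) : act σ (act τ x) = act (τ * σ) x := by
  funext e
  change x (pe τ (pe σ e)) = x (pe (τ * σ) e)
  rw [pe_pe]

theorem inc_pe (σ : Equiv.Perm (Fin 6)) (v : Fin 6) (e : Pr) :
    (σ v = (ends (pe σ e)).1 ∨ σ v = (ends (pe σ e)).2) ↔ (v = (ends e).1 ∨ v = (ends e).2) := by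
  have h1 : σ (ends e).1 ≠ σ (ends e).2 := fun h => ends_ne e (σ.injective h)
  unfold pe
  rcases ends_pr _ _ h1 with h | h
  · rw [h]
    simp only [σ.injective.eq_iff]
  · rw [h]
    simp only [σ.injective.eq_iff]
    exact or_comm

theorem deg_act (σ : Equiv.Perm (Fin 6)) (x : Pr → ℕ) (v : Fin 6) :
    deg (act σ x) v = deg x (σ v) := by
  unfold deg
  rw [← Equiv.sum_comp (peq σ) fun e => if σ v = (ends e).1 ∨ σ v = (ends e).2 then x e else 0]
  refine Finset.sum_congr rfl fun e _ => ?_
  have h1 : (peq σ) e = pe σ e := rfl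
  rw [h1]
  simp only [inc_pe]
  rfl

theorem can : CanStatement := by
  intro p g hg x hx
  obtain ⟨τ, hτ⟩ := Finite.exists_max fun τ : Equiv.Perm (Fin 6) => code (act τ x)
  have h1 : Cmp p (act τ x) := fun v => by rw [deg_act]; exact hx _
  have h2 := hg (act τ x) h1 fun σ => by rw [act_act]; exact hτ _
  rw [← Equiv.sum_comp (Equiv.mulLeft τ), ← h2]
  refine Finset.sum_congr rfl fun σ _ => ?_
  rw [act_act]
  rfl

end A602.S6.H63
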