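import Pool.Agent.Lib.MP_a60258_s6.Iface

/-! Module NCK (helper63): the necklace dominates the influences. -/

set_option autoImplicit false
set_option linter.unusedSimpArgs false

open MvPolynomial Finset

namespace A602.S6.H63

theorem rem_rep {V : Type} [Fintype V] [DecidableEq V] (e : V × V) (l : List (V × V)) :
    ∀ (q : ℕ) (d : V → ℕ), rem (List.replicate q e ++ l) d
      = rem l fun u => if u = e.1 ∨ u = e.2 then d u - q else d u
  | 0, d => by
      simp
  | q + 1, d => by
      rw [List.replicate_succ, List.cons_append]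
      change rem (List.replicate q e ++ l) _ = _
      rw [rem_rep e l q]
      congr 1
      funext u
      split_ifs <;> omega

/-- the relabelling from the necklace to the mirror graph -/
def sg : Equiv.Perm (Fin 6) where
  toFun := ![0, 1, 4, 3, 5, 2]
  invFun := ![0, 1, 5, 3, 2, 4]
  left_inv := by decide
  right_inv := by decide

/-- the necklace as a labelled graph -/
def nk (q : ℕ) : Pr → ℕ := mk ![q, 0, 1] ![1, 0, q] fun c =>
  ![![0, 0, 1], ![0, 0, 0], ![q, 0, 0]] c.1 c.2

theorem act_mir (q : ℕ) : act sg (mir (q + 1) ![q, 1, 0]) = nk q := by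
  funext e
  have h3 : ∀ i : Fin 3, i = 0 ∨ i = 1 ∨ i = 2 := by decide
  rcases e with i | i | ⟨i, j⟩
  · rcases h3 i with rfl | rfl | rfl <;>
      simp [act, sg, mir, nk, mk, pr, ends, in3, inl, inr, lgs, Fin.castAdd, Fin.natAdd, Fin.castLE]
  · rcases h3 i with rfl | rfl | rfl <;>
      simp [act, sg, mir, nk, mk, pr, ends, in3, inl, inr, lgs, Fin.castAdd, Fin.natAdd, Fin.castLE]
  · rcases h3 i with rfl | rfl | rfl <;> rcases h3 j with rfl | rfl | rfl <;>
      simp [act, sg, mir, nk, mk, pr, ends, in3, inl, inr, lgs, Fin.castAdd, Fin.natAdd, Fin.castLE]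

/-- the necklace with the last edge reversed -/
def neck' (q : ℕ) : List (Fin 6 × Fin 6) := (1, 2) :: (3, 4) :: (0, 5) ::
  (List.replicate q (0, 1) ++ (List.replicate q (2, 3) ++ List.replicate q (4, 5)))

theorem ms_nk (q : ℕ) : ((neck' q : List (Fin 6 × Fin 6)) : Multiset (Fin 6 × Fin 6))
    = ms ends (nk q) := by
  unfold ms nk mk neck'
  rw [Fintype.sum_sum_type, Fintype.sum_sum_type, Fintype.sum_prod_type]
  simp only [Fin.sum_univ_three, Sum.elim_inl, Sum.elim_inr, ends, in3]
  rw [← Multiset.cons_coe, ← Multiset.cons_coe, ← Multiset.cons_coe, ← Multiset.coe_add,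
    ← Multiset.coe_add, Multiset.coe_replicate, Multiset.coe_replicate, Multiset.coe_replicate,
    ← Multiset.singleton_add, ← Multiset.singleton_add, ← Multiset.singleton_add]
  simp only [Multiset.nsmul_singleton]
  have e0 : inl 0 = 0 := rfl
  have e1 : inl 1 = 1 := rfl
  have e2 : inl 2 = 2 := rfl
  have e3 : inr 0 = 3 := rfl
  have e4 : inr 1 = 4 := rfl
  have e5 : inr 2 = 5 := rfl
  simp [e0, e1, e2, e3, e4, e5]
  simp only [← Multiset.singleton_add]
  abel

theorem nck (h1 : PvpStatement) : NckStatement := by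
  intro S q P hP i
  refine (W_neck_ge hP i).trans (le_of_eq ?_)
  have h2 : W S P (neck q) = pval S (neck q) fun _ => P := by
    unfold W
    refine val_eq_pval (neck q) (d := fun _ => q + 1) (fun _ => hP) fun u => ?_
    unfold neck
    simp only [rem]
    rw [rem_rep, rem_rep, ← List.append_nil (List.replicate q ((4 : Fin 6), (5 : Fin 6))), rem_rep]
    simp only [rem]
    fin_cases u <;> simp
  have h3 : pval S (neck q) (fun _ => P) = pval S (neck' q) fun _ => P := by
    unfold neck neck'
    simp only [pval, dE_swap (5 : Fin 6) 0]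
  rw [h2, h3, ← h1.2 S P sg, act_mir]
  unfold Vx
  refine h1.1 (Fin 6) S _ _ _ ?_
  rw [← Multiset.coe_eq_coe, Multiset.coe_toList]
  exact ms_nk q

end A602.S6.H63
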